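import Pool.Agent.Helper4.TH.StD

/-!
Project TH, module Sol: solutions of the relations, and the relations as lists.
-/

set_option autoImplicit false

namespace Pool.Agent.Helper40.TH

open Pool.Agent.Helper4.TH Pool.Agent.Helper93.TLH
open Pool.Agent.Helper14.W5 (tr5 Fn5 Tm opL op5 S5Trm)

private lemma tr5_fun_sub {R : Type} [AddCommGroup R] {q q' : ℕ} (a b c d : ℤ)
    (F G : ZMod q → ZMod q' → R) :
    tr5 a b c d (fun x y => F x y - G x y) =
      fun x y => tr5 a b c d F x y - tr5 a b c d G x y := rfl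

/-- four term sums of differences -/
private lemma four {R : Type} [AddCommGroup R] {r s : ℕ} (ht : S5Trm)
    (F : ZMod (5 ^ r) → ZMod (5 ^ s) → R) :
    (tr5 4 (-1) 2 (-2) (tr5 4 (-1) 2 (-2) F) = tr5 3 (-1) 2 (-3) F) ∧
    (tr5 3 (-1) 2 (-3) (tr5 4 (-1) 2 (-2) F) = tr5 2 (-1) 2 (-4) F) ∧
    (tr5 2 (-1) 2 (-4) (tr5 4 (-1) 2 (-2) F) = F) ∧
    (tr5 6 (-5) 2 (-8) (tr5 6 (-5) 2 (-8) F) = tr5 7 (-5) 2 (-7) F) ∧
    (tr5 7 (-5) 2 (-7) (tr5 6 (-5) 2 (-8) F) = tr5 8 (-5) 2 (-6) F) ∧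
    (tr5 8 (-5) 2 (-6) (tr5 6 (-5) 2 (-8) F) = F) := by
  obtain ⟨c, i0, k⟩ := ht R r s F
  refine ⟨?_, ?_, ?_, ?_, ?_, ?_⟩
  · rw [c 4 (-1) 2 (-2) 4 (-1) 2 (-2) (by decide) (by decide) (by decide) (by decide),
      ← k 2 3 (-1) 2 (-3) (by decide) (by decide) (by decide)]
    norm_num
  · rw [c 3 (-1) 2 (-3) 4 (-1) 2 (-2) (by decide) (by decide) (by decide) (by decide)]
    norm_num
  · rw [c 2 (-1) 2 (-4) 4 (-1) 2 (-2) (by decide) (by decide) (by decide) (by decide)]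
    have h := k (-2) 1 0 0 1 (by decide) (by decide) (by decide)
    rw [i0] at h
    norm_num at h ⊢
    exact h
  · rw [c 6 (-5) 2 (-8) 6 (-5) 2 (-8) (by decide) (by decide) (by decide) (by decide),
      ← k (-2) 7 (-5) 2 (-7) (by decide) (by decide) (by decide)]
    norm_num
  · rw [c 7 (-5) 2 (-7) 6 (-5) 2 (-8) (by decide) (by decide) (by decide) (by decide),
      ← k (-1) 8 (-5) 2 (-6) (by decide) (by decide) (by decide)]
    norm_num
  · rw [c 8 (-5) 2 (-6) 6 (-5) 2 (-8) (by decide) (by decide) (by decide) (by decide)]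
    have h := k (-2) 1 0 0 1 (by decide) (by decide) (by decide)
    rw [i0] at h
    norm_num at h ⊢
    exact h

theorem hSol (ht : S5Trm) : TSol := by
  intro R _ r s f a b h
  obtain ⟨a1, a2, a3, -, -, -⟩ := four ht a
  obtain ⟨-, -, -, b1, b2, b3⟩ := four ht b
  have e0 : (fun i : Fin 2 => if i = 0 then f else fun x y => a x y - tr5 4 (-1) 2 (-2) a x y) 0
      = f := rfl
  have e1 : (fun i : Fin 2 => if i = 0 then f else fun x y => a x y - tr5 4 (-1) 2 (-2) a x y) 1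
      = fun x y => a x y - tr5 4 (-1) 2 (-2) a x y := rfl
  have hk : kH (fun i : Fin 2 => if i = 0 then f else fun x y => a x y - tr5 4 (-1) 2 (-2) a x y)
      = fun x y => b x y - tr5 6 (-5) 2 (-8) b x y := by
    funext x y
    unfold kH
    rw [e0, e1]
    exact sub_eq_zero.1 (h x y)
  refine ⟨fun x y => ?_, fun x y => ?_⟩
  · rw [e1]
    simp only [tr5_fun_sub]
    rw [a1, a2, a3]
    abel
  · rw [hk]
    simp only [tr5_fun_sub]
    rw [b1, b2, b3]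
    abel

theorem hRll (ht : S5Trm) : TRll := by
  intro r s F hF ρ
  obtain ⟨h1, h2⟩ := hF
  obtain ⟨c, i0, -⟩ := ht (ZMod 5) r s (F 0)
  obtain ⟨-, i1, -⟩ := ht (ZMod 5) r s (F 1)
  have t6 : tr5 6 (-5) 2 (-8) (tr5 1 1 0 1 (F 0)) = tr5 6 1 2 2 (F 0) := by
    rw [c 6 (-5) 2 (-8) 1 1 0 1 (by decide) (by decide) (by decide) (by decide)]
    norm_num
  have t7 : tr5 7 (-5) 2 (-7) (tr5 1 1 0 1 (F 0)) = tr5 7 2 2 3 (F 0) := by
    rw [c 7 (-5) 2 (-7) 1 1 0 1 (by decide) (by decide) (by decide) (by decide)]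
    norm_num
  have t8 : tr5 8 (-5) 2 (-6) (tr5 1 1 0 1 (F 0)) = tr5 8 3 2 4 (F 0) := by
    rw [c 8 (-5) 2 (-6) 1 1 0 1 (by decide) (by decide) (by decide) (by decide)]
    norm_num
  have hop : ∀ (a b c d : ℤ) (G : Fn5 (5 ^ r) (5 ^ s)) (x : ZMod (5 ^ r)) (y : ZMod (5 ^ s)),
      op5 a b c d G x y = tr5 a b c d G x y := fun _ _ _ _ _ _ _ => rfl
  have hk : kH F = fun x y => F 0 x y - tr5 1 1 0 1 (F 0) x y - F 1 x y := rfl
  have hsub : ∀ (a b c d : ℤ) (x : ZMod (5 ^ r)) (y : ZMod (5 ^ s)),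
      tr5 a b c d (kH F) x y = tr5 a b c d (F 0) x y - tr5 a b c d (tr5 1 1 0 1 (F 0)) x y -
        tr5 a b c d (F 1) x y := fun _ _ _ _ _ _ => rfl
  funext x y
  have g1 := h1 x y
  have g2 := h2 x y
  rw [hsub, hsub, hsub, t6, t7, t8, hk] at g2
  fin_cases ρ
  · simp [relH, opL, hop, i1]
    linear_combination g1
  · simp [relH, opL, hop, i0, i1]
    linear_combination g2

end Pool.Agent.Helper40.TH
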